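import Mathlib
import Pool.Agent.H879.RV.MarginGE

set_option autoImplicit false

/-!
# The Harbourne-Hirschowitz conjecture: the large multiplicities leave a margin in the positive cone

For every `μ` and every class `(d; w)` let `v` be the vector of the multiplicities larger than `μ`
(`large w μ`; the others are replaced by `0`). The class has a MARGIN if for some `μ`, some
`T ≥ 2 ^ 43 (μ + 1) ^ 11` and `D = d - T`

* `2 ^ 14 (μ + 1) ^ 3 ∑ v i ≤ T D` (this follows from the last condition if at most
  `2 ^ 58 (μ + 1) ^ 16` of the multiplicities are larger than `μ`),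
* `v i + v j + v l ≤ D` for all three indices,
* `D ^ 2 - ∑ (v i) ^ 2 ≥ 0`, and for some set `S` of at most nine indices (e.g. those of the nine
  largest multiplicities) every `i ∉ S` satisfies one of the conditions of `Tail`, for instance
  `(v i) ^ 2 ≤ 7 (D ^ 2 - ∑ (v i) ^ 2)`.

There is no condition on the number of the multiplicities `≤ μ`, and no other one on the large
multiplicities: up to the bounded margin `T` they may fill all of the volume `d ^ 2` but a part of
the size `m ^ 2 / 7`, where `m` is the tenth largest multiplicity.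

(1) If finitely many reflections in classes `H - E_i - E_j - E_k` carry `(d; w)` to a class with a
margin (e.g. `(d; w)` itself) then for general points the linear system `(d; w)` has the expected
dimension.

(2) For every `(d; w)` and general points: the linear system `(d; w)` is special if and only if it
is `(-1)`-special, unless its reduced form is a special standard class without margin.

The proof. (a) Kawamata-Viehweg (Ramanujam) vanishing for the blow-ups of the plane at arbitrary
distinct points, proved here over every algebraically closed field, of any characteristic: if `L` is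
effective, nonnegative on all irreducible curves, and `L ^ 2 > 0`, then `h¹ (L + K) = 0`. The adjoint
systems of an irreducible curve are treated by residues of polynomials modulo a monic polynomial in
two variables, which replace duality; the components of a member of `|L|` are added one by one in
such an order that every partial sum is positive on the next component. (b) `L = (d + 3; v + 1)` and
`(d - T; v)` are nef (TenthCoefficient, library). (c) `(d; v)` is at least `T` on all moving curves;
arbitrary small points impose maximal conditions on such systems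
(MP_1dafdd_ag.SmallPointsOnPositiveCores, this run).
-/

namespace Pool.Agent.Results.MP_6b2d39_ag.LargeMultiplicitiesWithMargin

open MvPolynomial Pool.Agent.TH167.SHDefs
open Pool.Agent.Q310.FP (Standard Carries)

/-- The property holds for all `n`-tuples of points outside some hypersurface. -/
def ForGeneral {n : ℕ} (p : (Fin n → Fin 2 → ℂ) → Prop) : Prop :=
  ∃ F : MvPolynomial (Fin n × Fin 2) ℂ, F ≠ 0 ∧ ∀ P : Fin n → Fin 2 → ℂ,
    eval (fun ij : Fin n × Fin 2 => P ij.1 ij.2) F ≠ 0 → p P

/-- The multiplicities larger than `μ` (the others are replaced by zero). -/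
def large {n : ℕ} (w : Fin n → ℕ) (μ : ℕ) : Fin n → ℕ := fun i => if μ < w i then w i else 0

/-- The self-intersection of the class `D H - ∑ v i E i`. -/
def self {n : ℕ} (D : ℕ) (v : Fin n → ℕ) : ℝ := (D : ℝ) ^ 2 - ∑ i, (v i : ℝ) ^ 2

/-- The sum of the squares of the `v j < v i` with `j ∉ S`. -/
noncomputable def below {n : ℕ} (S : Finset (Fin n)) (v : Fin n → ℕ) (i : Fin n) : ℝ :=
  ∑ j, if j ∉ S ∧ v j < v i then (v j : ℝ) ^ 2 else 0

/-- The sum of the squares of the `v j ≥ v i` with `j ∉ S`. -/
noncomputable def atLeast {n : ℕ} (S : Finset (Fin n)) (v : Fin n → ℕ) (i : Fin n) : ℝ :=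
  ∑ j, if j ∉ S ∧ v i ≤ v j then (v j : ℝ) ^ 2 else 0

/-- The condition on the multiplicities `v i` outside of a set `S` of at most nine indices. -/
def Tail {n : ℕ} (S : Finset (Fin n)) (D : ℕ) (v : Fin n → ℕ) : Prop :=
  S.card ≤ 9 ∧ ∀ i, i ∉ S → (v i : ℝ) ^ 2 ≤ 7 * self D v ∨
    (v i : ℝ) ^ 2 ≤ 4 * (self D v + below S v i) ∨
    (S.card = 9 ∧ 2 * (v i : ℝ) * atLeast S v i ≤ D * (self D v + below S v i))

/-- The large multiplicities leave a margin `T`. -/
def Margin {n : ℕ} (d : ℕ) (w : Fin n → ℕ) : Prop :=
  ∃ (μ T D : ℕ) (S : Finset (Fin n)), d = D + T ∧ 2 ^ 43 * (μ + 1) ^ 11 ≤ T ∧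
    2 ^ 14 * (μ + 1) ^ 3 * ∑ i, large w μ i ≤ T * D ∧
    Standard D (large w μ) ∧ ∑ i, large w μ i ^ 2 ≤ D ^ 2 ∧ Tail S D (large w μ)

theorem tail_iff {n : ℕ} {S : Finset (Fin n)} {D : ℕ} {v : Fin n → ℕ} (h : Tail S D v) :
    H879.RV.Tail S (D : ℝ) (fun i => (v i : ℝ)) := by
  refine ⟨h.1, fun i hi => ?_⟩
  have e1 : below S v i = Pool.Agent.K4H28.TC.below S (fun i => (v i : ℝ)) i := by
    unfold below Pool.Agent.K4H28.TC.below
    refine Finset.sum_congr rfl fun j _ => ?_
    by_cases hj : j ∉ S ∧ v j < v i
    · have h2 : (v j : ℝ) < v i := by exact_mod_cast hj.2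
      rw [if_pos hj, if_pos ⟨hj.1, h2⟩]
    · have h2 : ¬ (j ∉ S ∧ (v j : ℝ) < v i) := fun h' => hj ⟨h'.1, by
        have h3 := h'.2
        exact_mod_cast h3⟩
      rw [if_neg hj, if_neg h2]
  have e2 : atLeast S v i = Pool.Agent.K4H28.TC.above S (fun i => (v i : ℝ)) i := by
    unfold atLeast Pool.Agent.K4H28.TC.above
    refine Finset.sum_congr rfl fun j _ => ?_
    by_cases hj : j ∉ S ∧ v i ≤ v j
    · have h2 : (v i : ℝ) ≤ v j := by exact_mod_cast hj.2
      rw [if_pos hj, if_pos ⟨hj.1, h2⟩]
    · have h2 : ¬ (j ∉ S ∧ (v i : ℝ) ≤ v j) := fun h' => hj ⟨h'.1, by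
        have h3 := h'.2
        exact_mod_cast h3⟩
      rw [if_neg hj, if_neg h2]
  have h1 := h.2 i hi
  rw [e1, e2] at h1
  exact h1

theorem margin_iff {n d : ℕ} {w : Fin n → ℕ} (h : Margin d w) : H879.RV.Margin d w := by
  obtain ⟨μ, T, D, S, hd, hT1, hT2, hstd, hD0, hS⟩ := h
  have e43 : (2 : ℕ) ^ 43 = 8796093022208 := by norm_num
  have e14 : (2 : ℕ) ^ 14 = 16384 := by norm_num
  rw [e43] at hT1
  rw [e14] at hT2
  exact ⟨μ, T, D, S, hd, hT1, hT2, hstd, hD0, tail_iff hS⟩

theorem result (n : ℕ) (hn : 4 ≤ n) (d : ℕ) (w : Fin n → ℕ) :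
    (∀ (d' : ℕ) (w' : Fin n → ℕ), Carries d w d' w' → Margin d' w' →
      ForGeneral fun P => dimL P d w = max (virtdim d w) (-1)) ∧
    ForGeneral fun P =>
      (MinusOneSpecial P d w → Special P d w) ∧
      (Special P d w → MinusOneSpecial P d w ∨
        ∃ (d'' : ℕ) (w'' : Fin n → ℕ) (k : ℕ) (G : Fin k → MvPolynomial (Fin 3) ℂ)
          (e : Fin k → ℕ) (u : Fin k → Fin n → ℕ) (N : Fin k → ℕ) (d' : ℕ) (w' : Fin n → ℕ),
          Decomp P d w d'' w'' G e u N ∧
          Relation.ReflTransGen Quadratic (d'', w'') (d', w') ∧ Standard d' w' ∧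
          Special P d' w' ∧ ¬ Margin d' w') :=
  ⟨fun d' w' hc hM => (Pool.Agent.Q310.FP.GE.orbit hn hc (H879.RV.std_margin (margin_iff hM))
      (H879.RV.ge_margin hn (margin_iff hM))).general,
    Pool.Agent.Q310.FP.hh_rem hn (R := fun d' w' => ¬ Margin d' w') (fun d' w' _ => by
      by_cases hM : Margin d' w'
      · exact Or.inl (H879.RV.ge_margin hn (margin_iff hM))
      · exact Or.inr hM) d w⟩

end Pool.Agent.Results.MP_6b2d39_ag.LargeMultiplicitiesWithMargin
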